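import Pool.Agent.H683.BW.Final

/-!
# Directed Bandwidth on directed trees is fixed-parameter tractable in the width

Instances are pairs `(M, B)`, where the digraph with adjacency matrix `M` (vertex set
`Fin M.length`) is a directed tree: no loops, no two opposite arcs, and the underlying undirected
graph `graphOf M` is a tree. `DirBandwidth (M, B)`: there is a topological ordering `f` with
`f j - f i ≤ B` for all arcs `(i, j)`. The parameter is the largest size of an antichain of the
reachability order. The number `B` is part of the input (in binary) and is not a parameter.

Proof. Decompose the tree into `k ≤ 4 w` directed paths. There is always an ordering with
bandwidth at most `2 k` (by levels), so let `B ≤ 2 k`. Orderings correspond to words over the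
`k` paths that are accepted by a deterministic automaton with at most `(2 k + 2) ^ k` states (ages
of the last occurrences of the letters). Such a word decomposes into a short accepted word and
short cycles through the states it visits; by an exchange argument all multiplicities can be
made small, except for cycles with linearly independent Parikh vectors, whose multiplicities
are then determined by the lengths of the paths. So there is a certificate whose size depends only
on `k`, and it can be checked in polynomial time.
-/

set_option autoImplicit false

namespace Pool.Agent.Results.MP_7c7c4f_lc.WidthTractable

open Pool.Agent.NPC Pool.Agent.H633R2 Pool.Agent.H683.BW

/-- **Directed Bandwidth on directed trees, parameterized by the width, is fixed-parameter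
tractable**: some Turing machine decides it in time `h (width) * p (|input|)` with `h` computable and
`p` a polynomial. -/
theorem result : IsFpt (fun x : {x : List (List Bool) × ℕ // IsDirTree x.1} => width x.1.1)
    (fun x => DirBandwidth x.1) := Pool.Agent.NPC.H683BW.main

end Pool.Agent.Results.MP_7c7c4f_lc.WidthTractable
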